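import Mathlib
import Pool.Agent.Q254.PolyMove.CondLim

/-!
Elementary-move graphs `Λ(d,k)` on lattice polytopes: both negated forms of Q1.
-/

namespace Pool.Agent.Results.MP_f22ace_co.FixedDimension

open Pool.Agent.Q254.PolyMove Filter Topology

/-- (a) `inf_k h(Λ(2,k)) = 0`; (b) `Φ(Λ(d,k)) → 0` as `k → ∞` for every fixed `d ≥ 2`. -/
theorem result :
    (∀ c : ℝ, 0 < c → ∃ k : ℕ, 1 ≤ k ∧ hExp 2 k < c) ∧
    (∀ d : ℕ, 2 ≤ d → Tendsto (fun k => phiExp d k) atTop (𝓝 0)) := by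
  refine ⟨fun c hc => ?_, phi_tendsto_k⟩
  obtain ⟨k, hk, h, -⟩ := not_expanders c hc
  exact ⟨k, hk, h⟩

end Pool.Agent.Results.MP_f22ace_co.FixedDimension
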