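import Mathlib
import Pool.Agent.Q254.PolyMove.CondLim

/-!
Elementary-move graphs `Λ(d,k)` on lattice polytopes: Q2(b).
-/

namespace Pool.Agent.Results.MP_f22ace_co.FixedSide

open Pool.Agent.Q254.PolyMove Filter Topology

/-- `Φ(Λ(d,k)) → 0` as `d → ∞` for every fixed `k ≥ 1`. -/
theorem result (k : ℕ) (hk : 1 ≤ k) : Tendsto (fun d => phiExp d k) atTop (𝓝 0) :=
  phi_tendsto_dim k hk

end Pool.Agent.Results.MP_f22ace_co.FixedSide
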